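import Mathlib
import Pool.Agent.P8H8.MD.Red

set_option autoImplicit false

/-!
# Segre's conjecture for all classes whose Cremona reduction is nearly uniform, with a random sum

The starting file `CremonaReducible` treats the classes `(d, w)` which are reduced by quadratic transformations and by removing the lines
through two of the points which meet them negatively to a class `(d1, w1)` with the multiplicities `k` and `k + 1` at `n` of the points
and with multiplicities at most `1` at all the others. For `n ≥ 37` or `n = 13, 21` and equal multiplicities, for the multiples of four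
from `144` on and for large `n` it proves the conjecture for all of them, for the other `n` if `d1` is outside a window which depends on
the sum `W` of the multiplicities of `w1` at the `n` points.

Call `W` good for `n` (`SegreFor n W`) if Segre's conjecture holds for ALL these classes with the sum `W`, for every `d1`, `k`, every
number of simple points and every reduction: if the system is special at general points, then the square of a `(-1)`-curve divides all
its members; and it is not special if only quadratic transformations were used. (For `10 ≤ n ≤ 14` only equal multiplicities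
are considered.)

**Theorem.** (1) For every `n ≥ 10` and `δ > 0` a random number `W` is good for `n` with a probability of at least `1 - near n - δ`, where
`near n < 1`.

(2) Let `X` be a set of numbers `n ≥ 10` such that no two of them which are not squares have a product which is a square, for instance
the set of ALL squarefree numbers `n ≥ 10`. There is a `c > 0` such that with a probability of at least `c` the number `W` is good
simultaneously for ALL `n ∈ X`, for all squares `n ≥ 16`, all multiples `n ≥ 144` of four and all `n ≥ N₀`, where `N₀` is an absolute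
constant.

(3) With a probability of at least `10 ^ (-65)` a random number `m` is a multiplicity for which Segre's conjecture holds in the same sense
for ALL classes `(d, w)` which are reduced to a class with the multiplicity `m` at ANY number `n ≥ 10` of the points and with
multiplicities at most `1` at all the others.

Here a random number has a finitely supported distribution `μ`, and (`Always`) the statements hold for all random numbers for which the
exponential sums `E e(θ W)` at certain finitely many irrational `θ` and the probability of small values are small. For random numbers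
with restricted digits in number systems with bounded radices see `RandomSums`.

Proof. The engine of `RandomSums` (`Pool.Agent.P8H8.MD`) gives for such `W` the expected dimension of all systems with the multiplicities
`k`, `k + 1` of sum `W` at `n` general points in ALL degrees; this is what the theorem behind `CremonaReducible`
(`Pool.Agent.TH885.CO.segre_core`) needs. In (3) the multiplicities are those of `Pool.Agent.N141.SG` and `Pool.Agent.N794.DG` (starting
file `MP_8707bd_ag.EquivalenceRandomMultiplicities`).
-/

namespace Pool.Agent.Results.MP_cfebfb_ag.CremonaOfRandomSums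

open MvPolynomial Pool.Agent.N794.DG Pool.Agent.TH167.SHDefs
open Pool.Agent.TH885.CO (LineStep)

/-- Segre's conjecture, with a `(-1)`-curve, for the class `(d, w)` at general points; and the system is not special if only quadratic
transformations lead from `(d, w)` to `(d1, w1)`. -/
def Conclusion {s : ℕ} (d : ℕ) (w : Fin s → ℕ) (d1 : ℕ) (w1 : Fin s → ℕ) : Prop :=
  ∃ F : MvPolynomial (Fin s × Fin 2) ℂ, F ≠ 0 ∧ ∀ P : Fin s → Fin 2 → ℂ,
    eval (fun ij : Fin s × Fin 2 => P ij.1 ij.2) F ≠ 0 →
      (Special P d w → ∃ (G : MvPolynomial (Fin 3) ℂ) (e : ℕ) (u : Fin s → ℕ),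
        MinusOne P G e u ∧ inter d w e u ≤ -2 ∧ ∀ f ∈ sys P d w, G ^ 2 ∣ f) ∧
      (Relation.ReflTransGen Quadratic (d, w) (d1, w1) → ¬ Special P d w)

/-- The conclusion for all the classes `(d, w)` which are reduced to a class `(d1, w1)` with multiplicities
`k`, `k + 1` at `n` points, of sum `W`, and with multiplicities at most `1` at the other points. -/
def SegreFor (n W : ℕ) : Prop :=
  ∀ (s d d1 k : ℕ) (w w1 : Fin s → ℕ) (S : Finset (Fin s)), 1 ≤ k → S.card = n →
    (∀ i ∈ S, w1 i = k ∨ w1 i = k + 1) → (15 ≤ n ∨ ∀ i ∈ S, w1 i = k) → ∑ i ∈ S, w1 i = W →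
    (∀ i, i ∉ S → w1 i ≤ 1) →
    Relation.ReflTransGen (fun a b => Quadratic a b ∨ LineStep a b) (d, w) (d1, w1) →
    Conclusion d w d1 w1

/-- The conclusion for all the classes `(d, w)` which are reduced to a class `(d1, w1)` with the multiplicity `m` at `n` points,
and with multiplicities at most `1` at the other points. -/
def SegreEqual (n m : ℕ) : Prop :=
  ∀ (s d d1 : ℕ) (w w1 : Fin s → ℕ) (S : Finset (Fin s)), S.card = n → (∀ i ∈ S, w1 i = m) →
    (∀ i, i ∉ S → w1 i ≤ 1) →
    Relation.ReflTransGen (fun a b => Quadratic a b ∨ LineStep a b) (d, w) (d1, w1) →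
    Conclusion d w d1 w1

open Classical in
/-- The bound for the probability of the bad sums for `n` points. -/
noncomputable def near (n : ℕ) : ℝ :=
  if IsSquare n then 0
  else (min (√(n : ℝ) - 3) (2 / 3 + 9 / (4 * √(n : ℝ))) +
    min (√(n : ℝ) - 3) (2 / 3 + 1 / (4 * √(n : ℝ)))) / 2

theorem segre_of {n W : ℕ} (hn : 10 ≤ n) (h : Pool.Agent.N141.SG.GoodN n W) : SegreFor n W :=
  fun _ _ _ _ _ _ _ hk hS hnear hcase hsum hw hred =>
    Pool.Agent.P8H8.MD.red_of hn h hk hS hnear hcase hsum hw hred

theorem equal_of {n m : ℕ} (hn : 10 ≤ n) (hm : 1 ≤ m) (h : Pool.Agent.N141.SG.Tgt (m : ℕ)) : SegreEqual n m :=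
  fun _ _ _ _ _ _ hS heq hw hred => Pool.Agent.P8H8.MD.red_eq hn hm h hS heq hw hred

/-- **Main result.** -/
theorem result :
    -- one number of points
    (∀ n : ℕ, 10 ≤ n → near n < 1 ∧ ∀ δ : ℝ, 0 < δ →
      Always fun μ => meas μ (fun W => ¬ SegreFor n W) ≤ near n + δ) ∧
    -- all numbers of points at once
    (∃ N₀ : ℕ, ∀ X : Set ℕ, (∀ n ∈ X, 10 ≤ n) →
      (∀ n ∈ X, ∀ n' ∈ X, n ≠ n' → ¬ IsSquare n → ¬ IsSquare (n * n')) →
      ∃ c : ℝ, 0 < c ∧ Always fun μ => c ≤ meas μ fun W => ∀ n : ℕ, 10 ≤ n →
        (n ∈ X ∨ IsSquare n ∨ (4 ∣ n ∧ 144 ≤ n) ∨ N₀ ≤ n) → SegreFor n W) ∧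
    -- equal multiplicities: all numbers of points at once, without exception
    (Always fun μ => 1 / 10 ^ 65 ≤ meas μ fun m => 1 ≤ m ∧ ∀ n : ℕ, 10 ≤ n → SegreEqual n m) := by
  refine ⟨fun n hn => ⟨Pool.Agent.N141.SG.badN_lt hn, fun δ hδ => ?_⟩, ?_, ?_⟩
  · refine (Pool.Agent.P8H8.MD.always_near hn hδ).mono fun μ hμ h => ?_
    exact (meas_mono hμ fun W hW h1 => hW (segre_of hn h1)).trans h
  · obtain ⟨N₀, h⟩ := Pool.Agent.P8H8.MD.always_all
    refine ⟨N₀, fun X hX hXX => ?_⟩
    obtain ⟨c, hc, h1⟩ := h X hX hXX
    refine ⟨c, hc, h1.mono fun μ hμ h2 => ?_⟩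
    exact h2.trans (meas_mono hμ fun W hW n hn hcase => segre_of hn (hW n hn hcase))
  · refine always_tgt.mono fun μ hμ h => h.trans (meas_mono hμ fun m hm => ⟨hm.1, fun n hn => ?_⟩)
    exact equal_of hn hm.1 hm.2

end Pool.Agent.Results.MP_cfebfb_ag.CremonaOfRandomSums
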