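import Mathlib
import Pool.Agent.P8H8.MD.All
import Pool.Agent.P8H8.MD.Sub

set_option autoImplicit false

/-!
# Segre's conjecture for near-uniform multiplicities with a random sum, all numbers of points at once

Call a number `W` good for `n` (`Good n W`) if for ALL vectors of multiplicities `w i ∈ {k, k + 1}`, `k ≥ 1`, of sum `W` and length `n`,
for ALL vectors which are obtained from them by subdivision, and for EVERY degree `d` the linear system of the curves of degree `d` with
these multiplicities at general points of the complex projective plane is not special. A subdivision replaces a point of multiplicity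
`b ≥ 1` by four points of the multiplicities `⌊(2b-1)/4⌋`, `⌊2b/4⌋`, `⌊(2b+1)/4⌋`, `⌊(2b+2)/4⌋`; it can be repeated any number of times.
A random number `W` has a finitely supported distribution `μ`. `Always Q` says that all random numbers for which the exponential sums `E e(θ W)` at certain
finitely many irrational `θ` and the probability of small values are small have the property `Q`.

**Theorem.** (1) For every `n ≥ 10` and every `δ > 0` the random number `W` is good for `n` with a probability of at least
`1 - near n - δ`; here `near n < 1`.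

(2) Let `X` be a set of numbers `n ≥ 10` such that no two of them which are not squares have a product which is a square, for instance
the set of ALL squarefree numbers `n ≥ 10`. There is a `c > 0` such that with a probability of at least `c` the number `W` is good
simultaneously for ALL `n ∈ X`, for all squares `n ≥ 16`, for all multiples `n ≥ 144` of four and for all `n ≥ N₀`, where `N₀` is an
absolute constant.

(3) (1) and (2) hold in particular for `W = B + A t`, where `t` is uniformly distributed in the set of the numbers with `K ≥ K₀` digits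
`x j ∈ D j` in a number system with radices `b j ≤ R`, where `D j` is an arbitrary set of at least two of the digits `0, …, b j - 1`,
`1 ≤ A ≤ R`, and `B ≥ 0` is arbitrary; `K₀` depends on `R` only (and on `n`, `δ` or `X`), and not on the radices, the sets of digits and
`A`, `B`. For instance `t` can be the random number with `K` decimal digits, all equal to `3` or `7`, and `W` can be a random number of an
arbitrary interval of length `2 ^ K`.

The points are general: they are in a nonempty open set, the same for all degrees, which is defined over `ℚ`.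

Proof. The subdivisions are those of the starting file `SubdivisionClosure` (`Pool.Agent.TH545.SD`). `W` is not good for `n` only if `W / √n` lies in a certain arc of length `near n` modulo one (`Pool.Agent.N141.SG.Near`, from the
window of `Pool.Agent.TH885.NW`), and every `W` is good for squares, for multiples of four from `144` on (`Pool.Agent.TH2.NU`) and for
large `n` (`Pool.Agent.TH105.NU`). So in (2) there are finitely many conditions, and the numbers `1 / √n` for the `n ∈ X` below `N₀` which
are not squares are linearly independent together with `1`; the probabilities of arcs and boxes are those of `Pool.Agent.N794.DG`. In (3)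
the exponential sums factorize. With `P j = b 0 ⋯ b (j - 1)` the numbers `e(θ A R! P j)` cannot remain near `1` for long, as
`P (j + 1) = b j P j` and as `P j` is one of finitely many numbers for every `j`, so that the number of the places `j < K` at which the
factor is not near to one tends to infinity, uniformly.
-/

namespace Pool.Agent.Results.MP_cfebfb_ag.RandomSums

open MvPolynomial Pool.Agent.N794.DG

/-- Forms of degree `d` vanishing to order at least `w i` at the points `(P i 0 : P i 1 : 1)`. -/
noncomputable def forms {n : ℕ} (P : Fin n → Fin 2 → ℂ) (d : ℕ) (w : Fin n → ℕ) :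
    Submodule ℂ (MvPolynomial (Fin 3) ℂ) :=
  homogeneousSubmodule (Fin 3) ℂ d ⊓
    Submodule.restrictScalars ℂ
      (⨅ i : Fin n, (Ideal.span {X 0 - C (P i 0) * X 2, X 1 - C (P i 1) * X 2} :
        Ideal (MvPolynomial (Fin 3) ℂ)) ^ (w i))

/-- The system of the curves of degree `d` with multiplicities `w` at the points `P` is not special:
its projective dimension is the expected one, `max (virtdim, -1)`. -/
def NotSpecial {n : ℕ} (P : Fin n → Fin 2 → ℂ) (d : ℕ) (w : Fin n → ℕ) : Prop :=
  (Module.finrank ℂ ↥(forms P d w) : ℤ) - 1 =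
    max (((d + 2).choose 2 : ℤ) - 1 - ∑ i, ((w i + 1).choose 2 : ℤ)) (-1)

/-- For general points (one nonempty open set for all degrees, defined over `ℚ`) the systems of curves with the
multiplicities `w` are not special, in every degree. -/
def NeverSpecial {n : ℕ} (w : Fin n → ℕ) : Prop :=
  ∃ F : MvPolynomial (Fin n × Fin 2) ℚ, F ≠ 0 ∧ ∀ P : Fin n → Fin 2 → ℂ,
    MvPolynomial.aeval (fun ij : Fin n × Fin 2 => P ij.1 ij.2) F ≠ 0 → ∀ d : ℕ, NotSpecial P d w

/-- Four multiplicities, as equal as possible with the number of conditions of a point of multiplicity `b ≥ 1`. -/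
def quarters (b : ℕ) : Multiset ℕ := {(2 * b - 1) / 4, 2 * b / 4, (2 * b + 1) / 4, (2 * b + 2) / 4}

/-- The multisets obtained from `v` by subdivision: a point of multiplicity `b ≥ 1` is replaced by four points of the multiplicities
`quarters b`, any number of times. -/
inductive Subdiv (v : Multiset ℕ) : Multiset ℕ → Prop
  | refl : Subdiv v v
  | step {b : ℕ} {e : Multiset ℕ} (hb : 1 ≤ b) (h : Subdiv v (b ::ₘ e)) : Subdiv v (quarters b + e)

/-- All vectors of `n` positive multiplicities with sum `W` which take at most two consecutive values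
`k`, `k + 1`, and all vectors obtained from them by subdivision, are good in every degree. -/
def Good (n W : ℕ) : Prop :=
  ∀ k : ℕ, 0 < k → ∀ w : Fin n → ℕ, (∀ i, w i = k ∨ w i = k + 1) → ∑ i, w i = W →
    ∀ (N : ℕ) (v : Fin N → ℕ), Subdiv (Multiset.map w Finset.univ.val) (Multiset.map v Finset.univ.val) →
      NeverSpecial v

open Classical in
/-- The bound for the probability of the bad sums for `n` points. -/
noncomputable def near (n : ℕ) : ℝ :=
  if IsSquare n then 0
  else (min (√(n : ℝ) - 3) (2 / 3 + 9 / (4 * √(n : ℝ))) +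
    min (√(n : ℝ) - 3) (2 / 3 + 1 / (4 * √(n : ℝ)))) / 2

/-- The numbers with `K` digits in the number system with the radices `b 0, b 1, …`, the digit at the place `j` (of weight
`b 0 ⋯ b (j - 1)`) in `D j`. -/
def digitSet (b : ℕ → ℕ) (D : ℕ → Finset ℕ) : ℕ → Finset ℕ
  | 0 => {0}
  | K + 1 => (digitSet b D K ×ˢ D K).image fun p => p.1 + (∏ i ∈ Finset.range K, b i) * p.2

/-- All radices are between `2` and `R`, and at every place at least two digits are allowed. -/
def System (R : ℕ) (b : ℕ → ℕ) (D : ℕ → Finset ℕ) : Prop :=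
  ∀ j, 2 ≤ b j ∧ b j ≤ R ∧ (∀ x ∈ D j, x < b j) ∧ 2 ≤ (D j).card

theorem never_of {n : ℕ} {w : Fin n → ℕ} (h : Pool.Agent.N141.SG.ExN w) : NeverSpecial w := by
  obtain ⟨F, hF, hF'⟩ := h
  refine ⟨F, hF, fun P hP d => ?_⟩
  have h1 := hF' P hP d
  unfold Pool.Agent.H932R3.ExpDim at h1
  unfold NotSpecial forms
  rw [h1]
  have e : ∑ i, ((w i + 1).choose 2 : ℤ) = ((∑ i, (w i + 1).choose 2 : ℕ) : ℤ) := by
    push_cast
    rfl
  rw [e]
  omega

theorem gd_subdiv {v v' : Multiset ℕ} (h : Subdiv v v') (hv : Pool.Agent.TH545.SD.Gd v) :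
    Pool.Agent.TH545.SD.Gd v' := by
  induction h with
  | refl => exact hv
  | step hb _ ih => exact Pool.Agent.TH545.SD.Gd.one hb ih

theorem good_of {n W : ℕ} (h : Pool.Agent.N141.SG.GoodN n W) : Good n W := by
  intro m hm w hw hsum N v hv
  rw [Pool.Agent.TH545.SD.ms_map, Pool.Agent.TH545.SD.ms_map] at hv
  have h0 : Pool.Agent.TH545.SD.Gd (Pool.Agent.TH641.UM.ms w) :=
    Pool.Agent.P8H8.MD.gd_of_exN (h m hm w hw hsum)
  have hg : Pool.Agent.TH545.SD.Gd (Pool.Agent.TH641.UM.ms v) := gd_subdiv hv h0
  obtain ⟨F, hF, hF'⟩ := Pool.Agent.TH545.SD.Gd.expDim hg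
  exact never_of ⟨F, hF, fun P hP d => hF' P hP d⟩

theorem digitSet_eq (b : ℕ → ℕ) (D : ℕ → Finset ℕ) (K : ℕ) :
    digitSet b D K = Pool.Agent.P8H8.MD.dig b D K := by
  induction K with
  | zero => rfl
  | succ K ih =>
    unfold digitSet Pool.Agent.P8H8.MD.dig
    rw [ih]

theorem near_eq (n : ℕ) : near n = Pool.Agent.N141.SG.badN n := rfl

/-- **Main result.** -/
theorem result :
    -- one number of points
    (∀ n : ℕ, 10 ≤ n → near n < 1 ∧ ∀ δ : ℝ, 0 < δ →
      Always fun μ => meas μ (fun W => ¬ Good n W) ≤ near n + δ) ∧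
    -- all numbers of points at once
    (∃ N₀ : ℕ, ∀ X : Set ℕ, (∀ n ∈ X, 10 ≤ n) →
      (∀ n ∈ X, ∀ n' ∈ X, n ≠ n' → ¬ IsSquare n → ¬ IsSquare (n * n')) →
      ∃ c : ℝ, 0 < c ∧ Always fun μ => c ≤ meas μ fun W => ∀ n : ℕ, 10 ≤ n →
        (n ∈ X ∨ IsSquare n ∨ (4 ∣ n ∧ 144 ≤ n) ∨ N₀ ≤ n) → Good n W) ∧
    -- restricted digits
    (∀ Q : (ℕ →₀ ℝ) → Prop, Always Q → ∀ R : ℕ, ∃ K₀ : ℕ, ∀ K : ℕ, K₀ ≤ K →
      ∀ (b : ℕ → ℕ) (D : ℕ → Finset ℕ), System R b D → ∀ A B : ℕ, 1 ≤ A → A ≤ R →
        Q (law (digitSet b D K) (fun _ => 1 / ((digitSet b D K).card : ℝ)) (fun t => B + A * t))) := by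
  refine ⟨fun n hn => ⟨Pool.Agent.N141.SG.badN_lt hn, fun δ hδ => ?_⟩, ?_, fun Q hQ R => ?_⟩
  · refine (Pool.Agent.P8H8.MD.always_near hn hδ).mono fun μ hμ h => ?_
    exact (meas_mono hμ fun W hW h1 => hW (good_of h1)).trans h
  · obtain ⟨N₀, h⟩ := Pool.Agent.P8H8.MD.always_all
    refine ⟨N₀, fun X hX hXX => ?_⟩
    obtain ⟨c, hc, h1⟩ := h X hX hXX
    refine ⟨c, hc, h1.mono fun μ hμ h2 => ?_⟩
    exact h2.trans (meas_mono hμ fun W hW n hn hcase => good_of (hW n hn hcase))
  · rcases Nat.lt_or_ge R 2 with hR | hR
    · refine ⟨0, fun K _ b D hS => ?_⟩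
      have := hS 0
      omega
    · obtain ⟨K₀, h⟩ := Pool.Agent.P8H8.MD.always_radix hQ hR
      refine ⟨K₀, fun K hK b D hS A B hA1 hA2 => ?_⟩
      rw [digitSet_eq]
      exact h K hK b D hS A B hA1 hA2

end Pool.Agent.Results.MP_cfebfb_ag.RandomSums
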