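import Pool.Agent.P8H6.DC.Asm
import Pool.Agent.P8H80.DC.Esy
import Pool.Agent.P8H55.DC.Blk
import Pool.Agent.Results.MP_cfebfb_ag.RandomSums

/-!
# Segre's conjecture for near-uniform multiplicities whose sum arises from an arbitrary integer by changing a part of its digits

Call a number `W` good for `n` if for ALL vectors of multiplicities `w i ∈ {k, k + 1}`, `k ≥ 1`, `i < n`, of sum `W`, for ALL vectors which are
obtained from them by subdivision (a point of multiplicity `β ≥ 1` is replaced by four points of the multiplicities `⌊(2β-1)/4⌋`, `⌊2β/4⌋`,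
`⌊(2β+1)/4⌋`, `⌊(2β+2)/4⌋`, any number of times) and for EVERY degree `d` the linear system of the curves of degree `d` with these multiplicities
at general points of the complex projective plane is not special (`RandomSums.Good n W`).

Let `0 < ρ ≤ 1 / 2` and `b ≥ 2`.  Take an ARBITRARY integer `N` with at most `L` digits in base `b`, choose `r` of the `L` places at random,
`ρ L ≤ r ≤ (1 - ρ) L`, and replace the digits of `N` at these places by other digits, which may be prescribed in any way.  Let `W` be the number
which arises, or `W = B + A m` with the number `m` which arises, `1 ≤ A ≤ R`, `B ≥ 0`.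

(1) For every `n ≥ 10` and `δ > 0` the number `W` is good for `n` with a probability of at least `1 - near n - δ`, for all `L ≥ L₀`, and
`near n < 1`.

(2) Let `X` be a set of numbers `n ≥ 10` such that no two of them which are not squares have a product which is a square, for instance the
set of ALL squarefree numbers `n ≥ 10`.  There is a `c > 0` such that for all `b`, `ρ`, `R` and all `L ≥ L₀(b, ρ, R)`, with a probability of at
least `c`, the number `W` is good simultaneously for ALL `n ∈ X`, for all squares `n ≥ 16`, for all multiples `n ≥ 144` of four and for all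
`n ≥ N₀`, where `N₀` is an absolute constant.

`L₀` does not depend on `N`, on the new digits, on `r`, `A` and `B`.

Proof.  By the framework of the library (`Pool.Agent.N794.DG`, as in `RandomSums`) it is enough that the exponential sums `E e(θ W)` tend to zero for
irrational `θ`, uniformly.  The differences of the numbers `δ_i b^i θ` modulo one for neighbouring places `i` are not small at infinitely many
places, uniformly in the sequence of the differences `δ_i` of the digits (`BLK`, helper55), and an elementary symmetric function of numbers of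
modulus one with many such pairs is small (`ESY`, helper80).
-/

set_option autoImplicit false

namespace Pool.Agent.Results.MP_cfebfb_ag.DigitChanges

open Finset
open Pool.Agent.Results.MP_cfebfb_ag.RandomSums (Good near)

/-- The digit number `i` (counted from the right, beginning with `0`) of `n` in base `b`. -/
def digit (b i n : ℕ) : ℕ := n / b ^ i % b

/-- The number which arises from the number `N` with at most `L` digits in base `b`, if for every `i ∈ S`
the digit number `i` is replaced by `f i`. -/
def change (b L N : ℕ) (f : ℕ → ℕ) (S : Finset ℕ) : ℕ := ∑ i ∈ range L, (if i ∈ S then f i else digit b i N) * b ^ i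

open Classical in
/-- The proportion of the choices `S` of `r` of `L` places for which the number `B + A m` has the property `P`, where `m` is the number
obtained by changing the digits of `N` at the chosen places (according to `f`). -/
noncomputable def proportion (b L r N : ℕ) (f : ℕ → ℕ) (A B : ℕ) (P : ℕ → Prop) : ℝ :=
  (((powersetCard r (range L)).filter (fun S => P (B + A * change b L N f S))).card : ℝ) / (L.choose r : ℝ)

/-- The proportions have the property `Q` for all changes of digits: for every base `b ≥ 2`, `0 < ρ ≤ 1 / 2` and `R` there is an `L₀` such that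
`Q` holds for all `L ≥ L₀`, `ρ L ≤ r ≤ (1 - ρ) L`, `N < b ^ L`, new digits `f j` different from the digits of `N`, `1 ≤ A ≤ R` and `B ≥ 0`. -/
def ForChanges (Q : ((ℕ → Prop) → ℝ) → Prop) : Prop :=
  ∀ b : ℕ, 2 ≤ b → ∀ ρ : ℝ, 0 < ρ → ρ ≤ 1 / 2 → ∀ R : ℕ, ∃ L₀ : ℕ, ∀ L r : ℕ, L₀ ≤ L → ρ * L ≤ r → (r : ℝ) ≤ (1 - ρ) * L →
    ∀ N : ℕ, N < b ^ L → ∀ f : ℕ → ℕ, (∀ j, f j < b ∧ f j ≠ digit b j N) → ∀ A B : ℕ, 1 ≤ A → A ≤ R → Q (proportion b L r N f A B)

open Pool.Agent.N794.DG (Always law meas law_sum)

open Classical in
lemma meas_law {ι : Type} (Ω : Finset ι) (w : ι → ℝ) (x : ι → ℕ) (P : ℕ → Prop) :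
    meas (law Ω w x) P = ∑ i ∈ Ω, (if P (x i) then w i else 0) := by
  unfold meas
  rw [sum_filter]
  exact law_sum Ω w x (fun m a => if P m then a else 0) (fun _ => by simp) (fun m a b => by split_ifs <;> simp)

lemma meas_prop (b L r N : ℕ) (f : ℕ → ℕ) (A B : ℕ) (P : ℕ → Prop) :
    meas (law (powersetCard r (range L)) (fun _ => 1 / (L.choose r : ℝ)) (fun S => B + A * change b L N f S)) P = proportion b L r N f A B P := by
  classical
  rw [meas_law, ← sum_filter, sum_const, nsmul_eq_mul, mul_one_div]
  rfl

lemma prop_not (b L r N : ℕ) (f : ℕ → ℕ) (A B : ℕ) (P : ℕ → Prop) (hr : r ≤ L) :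
    proportion b L r N f A B P + proportion b L r N f A B (fun W => ¬ P W) = 1 := by
  classical
  have hC : (0 : ℝ) < L.choose r := by exact_mod_cast Nat.choose_pos hr
  unfold proportion
  rw [← add_div, div_eq_one_iff_eq hC.ne']
  have h1 := card_filter_add_card_filter_not (s := powersetCard r (range L)) (fun S => P (B + A * change b L N f S))
  rw [card_powersetCard, card_range] at h1
  rw [← Nat.cast_add, Nat.cast_inj, ← h1]
  congr!

lemma forChanges_of {Q : (ℕ →₀ ℝ) → Prop} (hQ : Always Q) (Q' : ((ℕ → Prop) → ℝ) → Prop)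
    (h : ∀ (b L r N : ℕ) (f : ℕ → ℕ) (A B : ℕ), r ≤ L →
      Q (law (powersetCard r (range L)) (fun _ => 1 / (L.choose r : ℝ)) (fun S => B + A * change b L N f S)) → Q' (proportion b L r N f A B)) :
    ForChanges Q' := by
  intro b hb ρ hρ hρ1 R
  obtain ⟨L₀, hL₀⟩ := Pool.Agent.P8H6.DC.always_change Pool.Agent.P8H80.DC.t_ESY Pool.Agent.P8H55.DC.t_BLK hQ b hb ρ hρ hρ1 R
  refine ⟨L₀, fun L r hL hr hr1 N _ f hf A B hA1 hA2 => h b L r N f A B ?_ (hL₀ L r hL hr hr1 N f hf A B hA1 hA2)⟩
  have : (r : ℝ) ≤ L := by
    have : (0 : ℝ) ≤ L := Nat.cast_nonneg _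
    nlinarith
  exact_mod_cast this

/-- **Main result.** (1) For every number `n ≥ 10` of points `near n < 1`, and for all changes of digits the proportion of the choices for which the
sum `W` is good for `n` is at least `1 - near n - δ`.  (2) For every set `X` as described there is a `c > 0` such that for all changes of digits
the proportion of the choices for which `W` is good for all `n ≥ 10` in `X`, all squares, all multiples of four from `144` on and all `n ≥ N₀` at
once is at least `c`. -/
theorem result :
    (∀ n : ℕ, 10 ≤ n → near n < 1 ∧ ∀ δ : ℝ, 0 < δ → ForChanges fun p => 1 - near n - δ ≤ p (Good n)) ∧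
    (∃ N₀ : ℕ, ∀ X : Set ℕ, (∀ n ∈ X, 10 ≤ n) → (∀ n ∈ X, ∀ n' ∈ X, n ≠ n' → ¬ IsSquare n → ¬ IsSquare (n * n')) →
      ∃ c : ℝ, 0 < c ∧ ForChanges fun p => c ≤ p fun W => ∀ n : ℕ, 10 ≤ n →
        (n ∈ X ∨ IsSquare n ∨ (4 ∣ n ∧ 144 ≤ n) ∨ N₀ ≤ n) → Good n W) := by
  obtain ⟨h1, h2, -⟩ := Pool.Agent.Results.MP_cfebfb_ag.RandomSums.result
  refine ⟨fun n hn => ⟨(h1 n hn).1, fun δ hδ => ?_⟩, ?_⟩
  · refine forChanges_of ((h1 n hn).2 δ hδ) _ fun b L r N f A B hr h => ?_
    rw [meas_prop] at h
    have h3 := prop_not b L r N f A B (Good n) hr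
    linarith
  · obtain ⟨N₀, h3⟩ := h2
    refine ⟨N₀, fun X hX hXX => ?_⟩
    obtain ⟨c, hc, h4⟩ := h3 X hX hXX
    refine ⟨c, hc, forChanges_of h4 _ fun b L r N f A B _ h => ?_⟩
    rw [meas_prop] at h
    exact h

end Pool.Agent.Results.MP_cfebfb_ag.DigitChanges
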